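import Pool.Agent.H.MP_58d537_lc.A20W.Avg

/-!
# Moments along a chain of partial averages
-/

set_option autoImplicit false

open Finset

namespace Pool.Agent.H.MP_58d537_lc

noncomputable section

variable {N : ℕ}

lemma pav_pav (L A : Finset (Fin N)) (g : (Fin N → Bool) → ℝ) :
    pav A (pav L g) = pav (L ∪ A) g := by
  funext x
  exact (pav_union L A g x).symm

/-- a partial average pulls out of a product with an invariant function -/
lemma avg_pav_mul (A : Finset (Fin N)) (u v : (Fin N → Bool) → ℝ)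
    (hv : ∀ x y, v (ovw A y x) = v x) :
    avg (fun x => pav A u x * v x) = avg (fun x => u x * v x) := by
  rw [← avg_avg_ovw A (fun x => u x * v x)]
  congr 1
  funext x
  simp only [hv]
  unfold pav
  have h := avg_const_mul (v x) (fun y => u (ovw A y x))
  calc _ = v x * avg (fun y => u (ovw A y x)) := mul_comm _ _
    _ = avg (fun y => v x * u (ovw A y x)) := h.symm
    _ = _ := by congr 1; funext y; exact mul_comm _ _

lemma pav_invariant (A : Finset (Fin N)) (g : (Fin N → Bool) → ℝ) (x y : Fin N → Bool) :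
    pav A g (ovw A y x) = pav A g x := by
  unfold pav
  congr 1
  funext z
  congr 1
  funext i
  unfold ovw
  by_cases hi : i ∈ A <;> simp [hi]

/-- Cauchy-Schwarz for powers -/
lemma avg_pow_sq_le (w : (Fin N → Bool) → ℝ) (hw : ∀ x, 0 ≤ w x) (p : ℕ) :
    (avg (fun x => w x ^ (p + 1))) ^ 2 ≤ avg w * avg (fun x => w x ^ (2 * p + 1)) := by
  have h8 := avg_mul_sq_le (fun x => Real.sqrt (w x)) (fun x => Real.sqrt (w x) ^ (2 * p + 1))
  have e1 : (fun x => Real.sqrt (w x) * Real.sqrt (w x) ^ (2 * p + 1)) =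
      fun x => w x ^ (p + 1) := by
    funext x
    calc _ = (Real.sqrt (w x) ^ 2) ^ (p + 1) := by ring
      _ = _ := by rw [Real.sq_sqrt (hw x)]
  have e2 : (fun x => Real.sqrt (w x) ^ 2) = w := by
    funext x; rw [Real.sq_sqrt (hw x)]
  have e3 : (fun x => (Real.sqrt (w x) ^ (2 * p + 1)) ^ 2) = fun x => w x ^ (2 * p + 1) := by
    funext x
    calc _ = (Real.sqrt (w x) ^ 2) ^ (2 * p + 1) := by ring
      _ = _ := by rw [Real.sq_sqrt (hw x)]
  rwa [e1, e2, e3] at h8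

/-- one-sided differences of powers -/
lemma pow_diff_le (p : ℕ) {a b : ℝ} (ha : 0 ≤ a) (hb : 0 ≤ b) :
    max (a ^ (p + 1) - b ^ (p + 1)) 0 ≤ ((p : ℝ) + 1) * a ^ p * max (a - b) 0 := by
  rcases le_total a b with h | h
  · have := pow_le_pow_left₀ ha h (p + 1)
    rw [max_eq_right (by linarith), max_eq_right (by linarith)]
    simp
  · have h6 := pow_le_pow_left₀ hb h (p + 1)
    rw [max_eq_left (by linarith), max_eq_left (by linarith)]
    have := tangent p ha hb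
    have e : ((p : ℝ) + 1) * a ^ p * (a - b) =
        ((p : ℝ) + 1) * a ^ (p + 1) - ((p : ℝ) + 1) * (a ^ p * b) := by ring
    rw [e]
    linarith

/-- the moment of one function against its partial average -/
lemma avg_pow_le_pav (V : (Fin N → Bool) → ℝ) (hV : ∀ x, 0 ≤ V x) (p : ℕ)
    (A : Finset (Fin N)) (D : (Fin N → Bool) → ℝ)
    (hdiff : ∀ x, ∑ i ∈ A, (max (V x - V (flip i x)) 0) ^ 2 ≤ D x * V x) :
    avg (fun x => V x ^ (2 * p + 2)) ≤
      avg (fun x => V x ^ (2 * p + 1) * pav A V x) +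
        ((p : ℝ) + 1) ^ 2 / 2 * avg (fun x => V x ^ (2 * p + 1) * D x) := by
  have h1 := cond_es ∅ A (fun x => V x ^ (p + 1))
  rw [Finset.empty_union, pav_empty] at h1
  have e1 : (fun x => (V x ^ (p + 1)) ^ 2) = fun x => V x ^ (2 * p + 2) := by
    funext x; rw [← pow_mul]; congr 1; ring
  rw [e1] at h1
  have h2 : avg (fun x => pav A (fun x => V x ^ (p + 1)) x ^ 2) ≤
      avg (fun x => V x ^ (2 * p + 1) * pav A V x) := by
    have h3 : ∀ x, pav A (fun x => V x ^ (p + 1)) x ^ 2 ≤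
        pav A (fun x => V x ^ (2 * p + 1)) x * pav A V x := by
      intro x
      have := avg_pow_sq_le (fun y => V (ovw A y x)) (fun y => hV _) p
      unfold pav
      calc _ ≤ _ := this
        _ = _ := mul_comm _ _
    refine (avg_mono h3).trans (le_of_eq ?_)
    exact avg_pav_mul A (fun x => V x ^ (2 * p + 1)) (pav A V) (fun x y => pav_invariant A V x y)
  have h4 : ∑ i ∈ A, avg (fun x => (max (V x ^ (p + 1) - V (flip i x) ^ (p + 1)) 0) ^ 2) ≤
      ((p : ℝ) + 1) ^ 2 * avg (fun x => V x ^ (2 * p + 1) * D x) := by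
    rw [← avg_sum A (fun i x => (max (V x ^ (p + 1) - V (flip i x) ^ (p + 1)) 0) ^ 2),
      ← avg_const_mul]
    apply avg_mono
    intro x
    have h5 : ∀ i ∈ A, (max (V x ^ (p + 1) - V (flip i x) ^ (p + 1)) 0) ^ 2 ≤
        (((p : ℝ) + 1) ^ 2 * V x ^ (2 * p)) * (max (V x - V (flip i x)) 0) ^ 2 := by
      intro i _
      calc _ ≤ (((p : ℝ) + 1) * V x ^ p * max (V x - V (flip i x)) 0) ^ 2 :=
            pow_le_pow_left₀ (le_max_right _ _) (pow_diff_le p (hV x) (hV _)) 2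
        _ = _ := by ring
    calc _ ≤ _ := Finset.sum_le_sum h5
      _ = (((p : ℝ) + 1) ^ 2 * V x ^ (2 * p)) * ∑ i ∈ A, (max (V x - V (flip i x)) 0) ^ 2 := by
          rw [← Finset.mul_sum]
      _ ≤ (((p : ℝ) + 1) ^ 2 * V x ^ (2 * p)) * (D x * V x) := by
          have := hV x
          exact mul_le_mul_of_nonneg_left (hdiff x) (by positivity)
      _ = _ := by ring
  have h6 : 1 / 2 * ∑ i ∈ A, avg (fun x => (max (V x ^ (p + 1) - V (flip i x) ^ (p + 1)) 0) ^ 2) ≤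
      ((p : ℝ) + 1) ^ 2 / 2 * avg (fun x => V x ^ (2 * p + 1) * D x) := by
    linarith
  linarith

/-- **one step of the chain** -/
lemma moment_step {ι : Type*} (J : Finset ι) (V : ι → (Fin N → Bool) → ℝ)
    (hV : ∀ j ∈ J, ∀ x, 0 ≤ V j x) {k : ℝ} (hk0 : 0 ≤ k) (hk : ∀ x, ∑ j ∈ J, V j x ≤ k)
    (p : ℕ) (A : Finset (Fin N)) (T : Finset ℕ) (cf : ℕ → ℝ) (hcf : ∀ s ∈ T, 0 ≤ cf s)
    (m : ℕ → (Fin N → Bool) → ℝ) (hm : ∀ s ∈ T, ∀ x, 0 ≤ m s x)
    (ν : ℕ → ℝ) (hν : ∀ s ∈ T, 0 < ν s)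
    (hmν : ∀ s ∈ T, avg (fun x => m s x ^ (2 * p + 2)) ≤ ν s ^ (2 * p + 2))
    (hdiff : ∀ j ∈ J, ∀ x, ∑ i ∈ A, (max (V j x - V j (flip i x)) 0) ^ 2 ≤
      (∑ s ∈ T, cf s * m s x) * V j x)
    {μ' : ℝ} (hμ' : 0 < μ')
    (hX' : ∑ j ∈ J, avg (fun x => pav A (V j) x ^ (2 * p + 2)) ≤ k * μ' ^ (2 * p + 1)) :
    ∑ j ∈ J, avg (fun x => V j x ^ (2 * p + 2)) ≤
      k * (μ' + ((p : ℝ) + 1) ^ 2 * ∑ s ∈ T, cf s * ν s) ^ (2 * p + 1) := by
  set n : ℕ := 2 * p with hn
  set X := ∑ j ∈ J, avg (fun x => V j x ^ (n + 2)) with hX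
  set X' := ∑ j ∈ J, avg (fun x => pav A (V j) x ^ (n + 2)) with hX'def
  set β := ((p : ℝ) + 1) ^ 2 / 2 * ∑ s ∈ T, cf s * ν s with hβ
  have hsum0 : 0 ≤ ∑ s ∈ T, cf s * ν s :=
    Finset.sum_nonneg fun s hs => mul_nonneg (hcf s hs) (hν s hs).le
  have hβ0 : 0 ≤ β := by positivity
  set μ := μ' + ((p : ℝ) + 1) ^ 2 * ∑ s ∈ T, cf s * ν s with hμ
  have hμβ : μ = μ' + 2 * β := by rw [hμ, hβ]; ring
  have hμ0 : 0 < μ := by rw [hμβ]; linarith
  have hX0 : 0 ≤ X := Finset.sum_nonneg fun j hj => avg_nonneg fun x => pow_nonneg (hV j hj x) _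
  have hpV : ∀ j ∈ J, ∀ x, 0 ≤ pav A (V j) x := fun j hj x => avg_nonneg fun y => hV j hj _
  -- the basic inequality
  set Y1 := ∑ j ∈ J, avg (fun x => V j x ^ (n + 1) * pav A (V j) x) with hY1
  set Y2 := ((p : ℝ) + 1) ^ 2 / 2 * ∑ s ∈ T, cf s * ∑ j ∈ J, avg (fun x => V j x ^ (n + 1) * m s x)
    with hY2
  have hbase : X ≤ Y1 + Y2 := by
    have h1 : ∀ j ∈ J, avg (fun x => V j x ^ (n + 2)) ≤
        avg (fun x => V j x ^ (n + 1) * pav A (V j) x) +
          ((p : ℝ) + 1) ^ 2 / 2 * ∑ s ∈ T, cf s * avg (fun x => V j x ^ (n + 1) * m s x) := by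
      intro j hj
      have h2 := avg_pow_le_pav (V j) (hV j hj) p A (fun x => ∑ s ∈ T, cf s * m s x) (hdiff j hj)
      have e : avg (fun x => V j x ^ (2 * p + 1) * ∑ s ∈ T, cf s * m s x) =
          ∑ s ∈ T, cf s * avg (fun x => V j x ^ (n + 1) * m s x) := by
        have e1 : (fun x => V j x ^ (2 * p + 1) * ∑ s ∈ T, cf s * m s x) =
            fun x => ∑ s ∈ T, cf s * (V j x ^ (n + 1) * m s x) := by
          funext x
          rw [Finset.mul_sum]
          exact Finset.sum_congr rfl fun s _ => by ring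
        rw [e1, avg_sum T (fun s x => cf s * (V j x ^ (n + 1) * m s x))]
        exact Finset.sum_congr rfl fun s _ => avg_const_mul _ _
      rw [e] at h2
      exact h2
    refine (Finset.sum_le_sum h1).trans (le_of_eq ?_)
    rw [Finset.sum_add_distrib, ← Finset.mul_sum, Finset.sum_comm]
    congr 2
    exact Finset.sum_congr rfl fun s _ => by rw [Finset.mul_sum]
  -- Young for the partial average
  have hY1le : ((n : ℝ) + 2) * μ * Y1 ≤ ((n : ℝ) + 1) * μ' * X + k * μ ^ (n + 2) := by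
    have h1 : ∀ j ∈ J, ∀ x, (((n : ℝ) + 2) * (μ' ^ (n + 1) * μ)) *
        (V j x ^ (n + 1) * pav A (V j) x) ≤
        (((n : ℝ) + 1) * μ' ^ (n + 2)) * V j x ^ (n + 2) +
          μ ^ (n + 2) * pav A (V j) x ^ (n + 2) := by
      intro j hj x
      have := tangent (n + 1) (mul_nonneg (hV j hj x) hμ'.le) (mul_nonneg (hpV j hj x) hμ0.le)
      push_cast at this
      calc _ = ((n : ℝ) + 1 + 1) * ((V j x * μ') ^ (n + 1) * (pav A (V j) x * μ)) := by ring
        _ ≤ _ := this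
        _ = _ := by ring
    have h2 : (((n : ℝ) + 2) * (μ' ^ (n + 1) * μ)) * Y1 ≤
        (((n : ℝ) + 1) * μ' ^ (n + 2)) * X + μ ^ (n + 2) * X' := by
      rw [hY1, hX, hX'def, Finset.mul_sum, Finset.mul_sum, Finset.mul_sum,
        ← Finset.sum_add_distrib]
      apply Finset.sum_le_sum
      intro j hj
      have := avg_mono (h1 j hj)
      rw [avg_const_mul, avg_add, avg_const_mul, avg_const_mul] at this
      exact this
    have h3 : (((n : ℝ) + 2) * (μ' ^ (n + 1) * μ)) * Y1 ≤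
        (((n : ℝ) + 1) * μ' ^ (n + 2)) * X + μ ^ (n + 2) * (k * μ' ^ (n + 1)) := by
      have : μ ^ (n + 2) * X' ≤ μ ^ (n + 2) * (k * μ' ^ (n + 1)) :=
        mul_le_mul_of_nonneg_left hX' (by positivity)
      linarith
    have h4 : μ' ^ (n + 1) * (((n : ℝ) + 2) * μ * Y1) ≤
        μ' ^ (n + 1) * (((n : ℝ) + 1) * μ' * X + k * μ ^ (n + 2)) := by
      calc _ = (((n : ℝ) + 2) * (μ' ^ (n + 1) * μ)) * Y1 := by ring
        _ ≤ _ := h3
        _ = _ := by ring
    exact le_of_mul_le_mul_left h4 (by positivity)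
  -- Young for the maxima
  have hY2le : ((n : ℝ) + 1) * μ * Y2 ≤ β * (n * X + k * μ ^ (n + 1)) := by
    have h1 : ∀ s ∈ T, ((n : ℝ) + 1) * μ *
        (cf s * ∑ j ∈ J, avg (fun x => V j x ^ (n + 1) * m s x)) ≤
        cf s * ν s * (n * X + k * μ ^ (n + 1)) := by
      intro s hs
      have := young_term J V hV hk0 hk n (hm s hs) (hν s hs) hμ0 (hmν s hs)
      calc _ = cf s * (((n : ℝ) + 1) * μ * ∑ j ∈ J, avg (fun x => V j x ^ (n + 1) * m s x)) := by
            ring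
        _ ≤ cf s * (ν s * (n * X + k * μ ^ (n + 1))) := mul_le_mul_of_nonneg_left this (hcf s hs)
        _ = _ := by ring
    calc _ = ((p : ℝ) + 1) ^ 2 / 2 * ∑ s ∈ T, ((n : ℝ) + 1) * μ *
        (cf s * ∑ j ∈ J, avg (fun x => V j x ^ (n + 1) * m s x)) := by
          rw [hY2, ← Finset.mul_sum]; ring
      _ ≤ ((p : ℝ) + 1) ^ 2 / 2 * ∑ s ∈ T, cf s * ν s * (n * X + k * μ ^ (n + 1)) :=
          mul_le_mul_of_nonneg_left (Finset.sum_le_sum h1) (by positivity)
      _ = _ := by rw [← Finset.sum_mul, hβ]; ring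
  -- conclusion
  have hn0 : (0 : ℝ) ≤ n := Nat.cast_nonneg n
  set M := k * μ ^ (n + 1) with hM
  have hM0 : 0 ≤ M := by positivity
  have hkμ : k * μ ^ (n + 2) = M * μ := by rw [hM]; ring
  rw [hkμ] at hY1le
  have h1 : ((n : ℝ) + 1) * (((n : ℝ) + 2) * μ * X) ≤
      ((n : ℝ) + 1) * (((n : ℝ) + 1) * μ' * X + M * μ) +
        ((n : ℝ) + 2) * (β * (n * X + M)) := by
    have h2 : ((n : ℝ) + 1) * (((n : ℝ) + 2) * μ * X) ≤
        ((n : ℝ) + 1) * (((n : ℝ) + 2) * μ * (Y1 + Y2)) := by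
      apply mul_le_mul_of_nonneg_left _ (by linarith)
      exact mul_le_mul_of_nonneg_left hbase (by positivity)
    have h3 : ((n : ℝ) + 1) * (((n : ℝ) + 2) * μ * Y1) ≤
        ((n : ℝ) + 1) * (((n : ℝ) + 1) * μ' * X + M * μ) :=
      mul_le_mul_of_nonneg_left hY1le (by linarith)
    have h4 : ((n : ℝ) + 2) * (((n : ℝ) + 1) * μ * Y2) ≤ ((n : ℝ) + 2) * (β * (n * X + M)) :=
      mul_le_mul_of_nonneg_left hY2le (by linarith)
    calc _ ≤ _ := h2
      _ = ((n : ℝ) + 1) * (((n : ℝ) + 2) * μ * Y1) + ((n : ℝ) + 2) * (((n : ℝ) + 1) * μ * Y2) := by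
          ring
      _ ≤ _ := add_le_add h3 h4
  have hμ'eq : μ' = μ - 2 * β := by rw [hμβ]; ring
  rw [hμ'eq] at h1
  have h5 : X * (μ * ((n : ℝ) + 1) + β * ((n : ℝ) ^ 2 + 2 * n + 2)) ≤
      M * (((n : ℝ) + 1) * μ + ((n : ℝ) + 2) * β) := by
    linarith
  have h6 : M * (((n : ℝ) + 1) * μ + ((n : ℝ) + 2) * β) ≤
      M * (μ * ((n : ℝ) + 1) + β * ((n : ℝ) ^ 2 + 2 * n + 2)) := by
    apply mul_le_mul_of_nonneg_left _ hM0
    nlinarith
  have h7 : 0 < μ * ((n : ℝ) + 1) + β * ((n : ℝ) ^ 2 + 2 * n + 2) := by positivity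
  exact le_of_mul_le_mul_right (h5.trans h6) h7

/-- **Moments along a chain.** -/
theorem chain_moment {ι : Type*} (J : Finset ι) (w : ι → (Fin N → Bool) → ℝ)
    (hw : ∀ j ∈ J, ∀ x, 0 ≤ w j x) {k : ℝ} (hk0 : 0 ≤ k) (hk : ∀ x, ∑ j ∈ J, w j x ≤ k)
    (p : ℕ) (rk : Fin N → ℕ) (L : Finset (Fin N)) (n : ℕ) (hn : ∀ i, rk i < n)
    {τ : ℝ} (hτ0 : 0 < τ) (hτ : ∀ j ∈ J, avg (w j) ≤ τ)
    (T : Finset ℕ) {c₀ : ℝ} (hc₀ : 0 ≤ c₀) (m : ℕ → ℕ → (Fin N → Bool) → ℝ)
    (hm : ∀ c s x, 0 ≤ m c s x) {ν : ℝ} (hν : 0 < ν)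
    (hmν : ∀ c < n, ∀ s ∈ T, avg (fun x => m c s x ^ (2 * p + 2)) ≤ ν ^ (2 * p + 2))
    (hdiff : ∀ c < n, ∀ j ∈ J, ∀ x,
      ∑ i ∈ univ.filter (fun i => rk i = c),
        (max (pav (L ∪ univ.filter (fun i => rk i < c)) (w j) x -
          pav (L ∪ univ.filter (fun i => rk i < c)) (w j) (flip i x)) 0) ^ 2 ≤
        (∑ s ∈ T, c₀ * m c s x) * pav (L ∪ univ.filter (fun i => rk i < c)) (w j) x) :
    ∑ j ∈ J, avg (fun x => pav L (w j) x ^ (2 * p + 2)) ≤
      k * (τ + ((p : ℝ) + 1) ^ 2 * (n * (T.card * (c₀ * ν)))) ^ (2 * p + 1) := by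
  set Lc : ℕ → Finset (Fin N) := fun c => L ∪ univ.filter (fun i => rk i < c) with hLc
  have hkey : ∀ e ≤ n, ∑ j ∈ J, avg (fun x => pav (Lc (n - e)) (w j) x ^ (2 * p + 2)) ≤
      k * (τ + ((p : ℝ) + 1) ^ 2 * (e * (T.card * (c₀ * ν)))) ^ (2 * p + 1) := by
    intro e
    induction e with
    | zero =>
      intro _
      have huniv : Lc (n - 0) = univ := by
        ext i
        simp [hLc, hn i]
      rw [huniv]
      have h1 : ∀ j x, pav univ (w j) x = avg (w j) := by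
        intro j x
        unfold pav
        congr 1
        funext y
        congr 1
        funext i
        simp [ovw]
      simp only [h1, avg_const]
      simp only [Nat.cast_zero, zero_mul, mul_zero, add_zero]
      have h2 : ∀ j ∈ J, avg (w j) ^ (2 * p + 2) ≤ avg (w j) * τ ^ (2 * p + 1) := by
        intro j hj
        have h3 : 0 ≤ avg (w j) := avg_nonneg (hw j hj)
        have h4 := pow_le_pow_left₀ h3 (hτ j hj) (2 * p + 1)
        calc _ = avg (w j) * avg (w j) ^ (2 * p + 1) := by ring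
          _ ≤ _ := mul_le_mul_of_nonneg_left h4 h3
      refine (Finset.sum_le_sum h2).trans ?_
      rw [← Finset.sum_mul]
      apply mul_le_mul_of_nonneg_right _ (by positivity)
      rw [← avg_sum]
      have := avg_mono hk
      rwa [avg_const] at this
    | succ e ih =>
      intro he
      have ih' := ih (by omega)
      set c := n - (e + 1) with hc
      have hc1 : n - e = c + 1 := by omega
      have hcn : c < n := by omega
      rw [hc1] at ih'
      have hA : Lc (c + 1) = Lc c ∪ univ.filter (fun i => rk i = c) := by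
        ext i
        simp only [hLc, mem_union, mem_filter, mem_univ, true_and, Nat.lt_succ_iff_lt_or_eq]
        tauto
      rw [hA] at ih'
      have h0 : 0 ≤ ((p : ℝ) + 1) ^ 2 * (e * (T.card * (c₀ * ν))) := by positivity
      have hstep := moment_step J (fun j => pav (Lc c) (w j))
        (fun j hj x => avg_nonneg fun y => hw j hj _) hk0
        (by
          intro x
          unfold pav
          rw [← avg_sum J (fun j y => w j (ovw (Lc c) y x))]
          have h1 : avg (fun y => ∑ j ∈ J, w j (ovw (Lc c) y x)) ≤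
              avg (fun _ : Fin N → Bool => k) := avg_mono fun y => hk _
          rwa [avg_const] at h1) p (univ.filter (fun i => rk i = c)) T (fun _ => c₀)
        (fun _ _ => hc₀) (fun s => m c s) (fun s _ x => hm c s x) (fun _ => ν) (fun _ _ => hν)
        (fun s hs => hmν c hcn s hs) (fun j hj x => hdiff c hcn j hj x)
        (μ' := τ + ((p : ℝ) + 1) ^ 2 * (e * (T.card * (c₀ * ν)))) (by linarith)
        (by simpa only [pav_pav] using ih')
      refine hstep.trans (le_of_eq ?_)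
      congr 2
      rw [Finset.sum_const, nsmul_eq_mul]
      push_cast
      ring
  have h := hkey n le_rfl
  have e0 : Lc (n - n) = L := by
    ext i
    simp [hLc]
  rwa [e0] at h

end

end Pool.Agent.H.MP_58d537_lc
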